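import Pool.Agent.H44.SO.Basic
import Pool.Agent.H44.EQ.Asm

/-!
# Several orbits of vertices: local injections
-/

set_option autoImplicit false
set_option linter.unusedVariables false

namespace Pool.Agent.H34.SO.INL

open Pool.Agent.H68.BP Pool.Agent.H58.SF Pool.Agent.H53.GC Pool.Agent.H53.NR
open Pool.Agent.H57.EQ (Cx Tour)
open Pool.Agent.H57.SO
open Pool.Agent.H44.SO
open Pool.Agent.H44.EQ (PolMap TInv BinPol ZA JSet sel kap kap_empty kap_univ pat_cases)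
open Function

theorem pf_INL (hJEX : T_JEX) (hJNE : T_JNE) (hTWO : T_TWO) (hSEP : T_SEP) (hMIN : T_MIN)
    (hCMP : T_CMP) (hCON : T_CON) (hLTR : T_LTR) (hCAS : Pool.Agent.H44.EQ.T_CAS) : T_INL := by
  intro σ V S X _ P 𝔸 M c hs h hC s
  classical
  by_contra hI
  -- the determining positions
  choose jj hsat hj using fun κ : Fin 6 → ℕ => hJEX σ V S X P 𝔸 M c hs h hC.can s κ
  have hone : ∀ κ : Fin 6 → ℕ, ∀ l ∈ jj κ, ∀ l' ∈ jj κ, κ l = κ l' := by
    intro κ l hl l' hl'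
    by_contra hne
    exact hI (hTWO σ V S X P 𝔸 M c hs h hC s κ (jj κ) (hj κ) l l' hl hl' hne)
  have hne : ∀ κ : Fin 6 → ℕ, (jj κ).Nonempty := fun κ =>
    hJNE σ V S X P 𝔸 M c hs h hC s κ (jj κ) (hj κ)
  -- the generic shape
  obtain ⟨i₀, hi₀⟩ := hne (fun l => l.val + 1)
  have hJ0 : jj (fun l => l.val + 1) = {i₀} := by
    apply Set.eq_singleton_iff_unique_mem.2
    refine ⟨hi₀, fun l hl => ?_⟩
    have := hone _ l hl i₀ hi₀
    exact Fin.ext (by simpa using this)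
  -- the special shape
  obtain ⟨r, hr, hS⟩ := hLTR σ V S X P 𝔸 M c hs h hC s (fun r => jj (pat r 0 7))
    (fun r => hj _) (fun r => hsat _) (fun r => hone _) i₀
  obtain ⟨n, q, γ₀, γ₁, p₀, p₀', p₁, p₁', U, hq, hb₀, hb₁, e1, e2, e3, e4, hU, hU'⟩ :=
    hMIN σ V S X P 𝔸 M c hs s hI
  have hk0 : kap (pat r 0 7) ∅ = fun l => l.val + 1 := funext (kap_empty _)
  obtain ⟨s₀, s₁, hs'⟩ := hCAS V (Fin n × Fin n) γ₀ γ₁ p₀ p₀' p₁ p₁' (pat r 0 7)
    (jj (pat r 0 7)) i₀ (fun T => jj (kap (pat r 0 7) T)) (pat_cases r) hS hr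
    (fun T => hsat _) (fun T => hone _) (by simp only [hk0]; exact hJ0)
    (by simp only [kap_univ]) e1 e2 e3 e4
  obtain ⟨z, hz1, hz2, hz3, hz4⟩ := hCON σ V S X P 𝔸 M c hs (Fin n × Fin n) γ₀ γ₁ (pat r 0 7)
    (jj (pat r 0 7)) s₀ s₁ (pat_cases r) hS
  have hLoc : ∀ l, Loc P 𝔸 c q (fun p => sel (jj (pat r 0 7)) γ₀ γ₁ l p) := by
    intro l
    by_cases hl : l ∈ jj (pat r 0 7)
    · simpa [sel, hl] using hb₀
    · simpa [sel, hl] using hb₁
  -- equal elements of two blocks come from equal values of one of the maps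
  have hsame : ∀ p p' l l', z p l = z p' l' → γ₀ p = γ₀ p' ∨ γ₁ p = γ₁ p' := by
    intro p p' l l' he
    obtain ⟨h2, h3, -⟩ := (hz4 p p' l l').1 he
    by_cases hl : l ∈ jj (pat r 0 7)
    · have hl' := h2.1 hl
      simp only [sel, hl, hl', if_true] at h3
      exact Or.inl h3
    · have hl' : l' ∉ jj (pat r 0 7) := fun h' => hl (h2.2 h')
      simp only [sel, hl, hl', if_false] at h3
      exact Or.inr h3
  obtain ⟨δ, hδ, hδ'⟩ := hCMP σ V S X P 𝔸 M c hs h hC n q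
    (fun l p => sel (jj (pat r 0 7)) γ₀ γ₁ l p) z hLoc hz1 hz2 (by
      intro t p p' hp hp' h1 h2 l l' he
      rcases hsame p p' l l' he with h3 | h3
      · exact hb₀.sep p.1 p.2 p'.1 p'.2 (hp.2.trans hp.1.symm) (hp'.1.trans hp.1.symm)
          (hp'.2.trans hp.1.symm) h1 h2 h3
      · exact hb₁.sep p.1 p.2 p'.1 p'.2 (hp.2.trans hp.1.symm) (hp'.1.trans hp.1.symm)
          (hp'.2.trans hp.1.symm) h1 h2 h3)
  obtain ⟨u, hu, hdu⟩ := hU δ hδ
  obtain ⟨s', hnone⟩ := (hδ' u.1 u.2).1 hdu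
  -- the types of the elements of the blocks
  have htyp : ∀ p, OfT P c q s p → ∀ l, c (sel (jj (pat r 0 7)) γ₀ γ₁ l p)
      (sel (jj (pat r 0 7)) γ₀ γ₁ l p) = Sum.inl s := by
    intro p hp l
    have h1 := (hLoc l).typ p.1 p.2 (hp.1.trans hp.2.symm)
    exact (Col.vt_iff hs.col).1 (h1.trans hp.1)
  -- the pairs which are treated by the determining positions
  have key : ∀ u ∈ ({(p₀, p₀'), (p₁, p₁')} : Set ((Fin n × Fin n) × (Fin n × Fin n))),
      OfT P c q s u.1 → OfT P c q s u.2 → ∀ s', h (z u.1) (z u.2) ≠ Sum.inl s' := by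
    intro u hu hu1 hu2
    refine hSEP σ V S X P 𝔸 M c hs h hC s _ _ _ _ (hj _) (hj _) (hsat _) (hsat _) (z u.1)
      (z u.2) (hz3 u.1 s (htyp u.1 hu1)) (hz3 u.2 s (htyp u.2 hu2)) ?_
    intro l hl l' hl' he
    exact hs' u hu l hl l' hl' ((hz4 u.1 u.2 l l').1 he)
  obtain ⟨hu1, hu2, hu3⟩ := hU' u hu
  rcases hu3 with h1 | h1 | h1
  · exact key u (by simp [h1]) hu1 hu2 s' hnone
  · exact key u (by simp [h1]) hu1 hu2 s' hnone
  · have hF : ∀ p, OfT P c q s p → FBl P c s (z p) := by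
      intro p hp
      have h2 : ∀ l, c (z p l) (z p l) = Sum.inl s := fun l => (hz1 l p p).trans (htyp p hp l)
      refine ⟨h2, fun l l' hll => ?_⟩
      rw [hz2 p l l' hll, (Col.vt_iff hs.col).2 (h2 l), (Col.vt_iff hs.col).2 (h2 l')]
    refine hC.ncol s (z u.1) (z u.2) (hF u.1 hu1) (hF u.2 hu2) (fun l l' he => ?_) s' hnone
    rcases hsame u.1 u.2 l l' he with h2 | h2
    · exact h1.1 h2
    · exact h1.2 h2

end Pool.Agent.H34.SO.INL
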